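import Pool.Agent.N557.BP.Stm

set_option autoImplicit false

/-!
# Project BP (helper557), part FIRST: the first frame in which an end point is close to the line
-/

namespace Pool.Agent.N329.BP

open Complex Set MeasureTheory Filter Topology Pool.Agent.W780.PG Pool.Agent.W780.BB
  Pool.Agent.TH103.BL Pool.Agent.N557.BP

open scoped Real ComplexConjugate

theorem vd_eq {n : ℕ} (p : Fin (n + 3) → ℂ) (z : ℂ) (θ : ℝ) (u : ℕ → Fin (n + 3)) (t : ℕ → ℝ)
    (m : ℕ) (j : Fin (n + 3)) :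
    vd p z θ u m j = (conj (dir (angs p θ u m)) * (pt p z θ u t m - p j)).im := by
  unfold vd sd pt
  have h1 : conj (dir (angs p θ u m)) * dir (angs p θ u m) = 1 := by
    rw [mul_comm, Complex.mul_conj, Complex.normSq_eq_norm_sq, norm_dir]
    norm_num
  have h2 : conj (dir (angs p θ u m)) * (srcs p z u m + t m • dir (angs p θ u m) - p j) =
      conj (dir (angs p θ u m)) * (srcs p z u m - p j) + ((t m : ℝ) : ℂ) := by
    rw [real_smul]
    linear_combination ((t m : ℝ) : ℂ) * h1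
  simp only
  rw [h2, Complex.add_im, Complex.ofReal_im, add_zero]

theorem abs_vd_le {n : ℕ} (p : Fin (n + 3) → ℂ) (z : ℂ) (θ : ℝ) (u : ℕ → Fin (n + 3))
    (t : ℕ → ℝ) (m : ℕ) (j : Fin (n + 3)) :
    |vd p z θ u m j| ≤ ‖pt p z θ u t m - p j‖ := by
  rw [vd_eq p z θ u t m j]
  refine (Complex.abs_im_le_norm _).trans ?_
  rw [norm_mul, RCLike.norm_conj, norm_dir, one_mul]

theorem exists_kappa {n : ℕ} (p : Fin (n + 3) → ℂ) (hp : IsConvexPolygon p) :
    ∃ κ : ℝ, 0 < κ ∧ ∀ i j : Fin (n + 3), ∀ y ∈ side p i, ‖y - p j‖ < κ → j = i ∨ j = i + 1 := by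
  classical
  let f : Fin (n + 3) × Fin (n + 3) → ℝ := fun x =>
    if x.2 ≠ x.1 ∧ x.2 ≠ x.1 + 1 then sf p x.1 (p x.2) / (‖p (x.1 + 1) - p x.1‖ + 1) else 1
  obtain ⟨x0, hx0⟩ := Finite.exists_min f
  have hf : ∀ x, 0 < f x := by
    intro x
    by_cases hx : x.2 ≠ x.1 ∧ x.2 ≠ x.1 + 1
    · have h1 : f x = sf p x.1 (p x.2) / (‖p (x.1 + 1) - p x.1‖ + 1) := if_pos hx
      rw [h1]
      exact div_pos (hp.pos x.1 x.2 hx.1 hx.2) (by positivity)
    · have h1 : f x = 1 := if_neg hx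
      rw [h1]
      exact one_pos
  refine ⟨f x0, hf x0, fun i j y hy hn => ?_⟩
  by_contra hc
  push Not at hc
  have h1 : f (i, j) = sf p i (p j) / (‖p (i + 1) - p i‖ + 1) := if_pos hc
  have h2 := hx0 (i, j)
  rw [h1] at h2
  have h3 := sf_lip p i y (p j)
  rw [side_zero hp hy, zero_sub, abs_neg] at h3
  have h4 := le_abs_self (sf p i (p j))
  have h5 : 0 < ‖p (i + 1) - p i‖ + 1 := by positivity
  have h6 : f x0 * (‖p (i + 1) - p i‖ + 1) ≤ sf p i (p j) := (le_div_iff₀ h5).1 h2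
  have h7 : ‖y - p j‖ * (‖p (i + 1) - p i‖ + 1) < f x0 * (‖p (i + 1) - p i‖ + 1) :=
    mul_lt_mul_of_pos_right hn h5
  nlinarith [norm_nonneg (y - p j)]

/-- the theorem -/
theorem t_first : S_First := by
  classical
  intro n p hp z θ u t O H δ hδ
  obtain ⟨κ, hκ, hκ'⟩ := exists_kappa p hp
  have hex : ∃ K : ℕ, ∃ j : Fin (n + 3), (j = u K ∨ j = u K + 1) ∧ |vd p z θ u K j| < δ := by
    obtain ⟨K, j, hK⟩ := H (min δ κ) (lt_min hδ hκ)
    refine ⟨K, j, hκ' (u K) j (pt p z θ u t K) (O.hit K) (hK.trans_le (min_le_right _ _)), ?_⟩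
    exact (abs_vd_le p z θ u t K j).trans_lt (hK.trans_le (min_le_left _ _))
  refine ⟨Nat.find hex, fun m hm => ?_, Nat.find_spec hex⟩
  have h1 := Nat.find_min hex hm
  push Not at h1
  exact ⟨h1 _ (Or.inl rfl), h1 _ (Or.inr rfl)⟩

end Pool.Agent.N329.BP
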